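import Pool.Agent.Helper48.OD.St

/-! MODULE MXZ of project OD. -/

set_option autoImplicit false

namespace Pool.Agent.Helper98.OD

open Pool.Agent.Helper43.GD Pool.Agent.Helper48.OD

theorem two_pow_sub {L : Type} [CommRing L] (z : L) (t : ℕ) :
    ∃ w : L, (z - 1) ^ (2 ^ t) = z ^ (2 ^ t) - 1 + 2 * w := by
  induction t with
  | zero => exact ⟨0, by simp⟩
  | succ t ih =>
    obtain ⟨w, hw⟩ := ih
    refine ⟨1 - z ^ (2 ^ t) + 2 * w * (z ^ (2 ^ t) - 1) + 2 * w ^ 2, ?_⟩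
    rw [pow_succ 2 t, pow_mul, hw, pow_mul]
    ring

theorem geom_one {L : Type} [CommRing L] (z : L) (n : ℕ) :
    ∃ q : L, ∑ i ∈ Finset.range n, z ^ i = n + (z - 1) * q := by
  induction n with
  | zero => exact ⟨0, by simp⟩
  | succ n ih =>
    obtain ⟨q, hq⟩ := ih
    obtain ⟨q', hq'⟩ := sub_dvd_pow_sub_pow z 1 n
    refine ⟨q + q', ?_⟩
    rw [one_pow] at hq'
    rw [Finset.sum_range_succ, hq, Nat.cast_succ]
    linear_combination hq'

theorem hMXZ : StMXZ := by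
  intro L _ v ζ D e j s hv he hj hζ hD hod
  have hen : ∀ n : ℕ, e ^ (n + 1) = e := fun n => IsIdempotentElem.pow_succ_eq n he
  -- (1)
  have h1 : IsNilpotent (((ζ : L) - 1) * e) := by
    obtain ⟨t, ht⟩ := hζ
    obtain ⟨w, hw⟩ := two_pow_sub (ζ : L) t
    have ht' : (ζ : L) ^ (2 ^ t) = 1 := by
      rw [← Units.val_pow_eq_pow_val, ht, Units.val_one]
    rw [ht', sub_self, zero_add] at hw
    refine ⟨2 ^ t * j + 1, ?_⟩
    rw [mul_pow, hen, pow_succ, pow_mul, hw, mul_pow]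
    linear_combination w ^ j * ((ζ : L) - 1) * hj
  -- (2)
  have h2 : IsNilpotent (((D : L) - 1) * e) := by
    obtain ⟨u, hu⟩ := hv
    have h3 : ((D : L) - 1) * e = (-(((u⁻¹ : Lˣ) : L) * (v : L))) * (((ζ : L) - 1) * e) := by
      have h4 : ((D : L) - 1) * (u : L) = (v : L) * (1 - ζ) := by
        rw [hu]; linear_combination hD
      have h5 : (u : L) * ((u⁻¹ : Lˣ) : L) = 1 := Units.mul_inv u
      linear_combination ((u⁻¹ : Lˣ) : L) * e * h4 - ((D : L) - 1) * e * h5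
    rw [h3]
    exact Commute.isNilpotent_mul_left (Commute.all _ _) h1
  have h6 : ∀ q : L, IsNilpotent (((D : L) ^ (2 ^ s) - 1) * e * q) := by
    intro q
    obtain ⟨c, hc⟩ := sub_dvd_pow_sub_pow (D : L) 1 (2 ^ s)
    rw [one_pow] at hc
    have h7 : ((D : L) ^ (2 ^ s) - 1) * e * q = (c * q) * (((D : L) - 1) * e) := by
      rw [hc]; ring
    rw [h7]
    exact Commute.isNilpotent_mul_left (Commute.all _ _) h2
  -- (3)
  obtain ⟨N, ⟨c, hc⟩, hN⟩ := hod
  have hN' : ((D : L) ^ (2 ^ s)) ^ N = 1 := by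
    rw [← Units.val_pow_eq_pow_val, ← Units.val_pow_eq_pow_val, hN, Units.val_one]
  obtain ⟨q, hq⟩ := geom_one ((D : L) ^ (2 ^ s)) N
  have h8 := mul_geom_sum ((D : L) ^ (2 ^ s)) N
  rw [hN', sub_self, hq, hc] at h8
  push_cast at h8
  have h9 : IsNilpotent (2 * (c : L) * e + ((D : L) ^ (2 ^ s) - 1) * e * q) := by
    refine Commute.isNilpotent_add (Commute.all _ _) ?_ (h6 q)
    refine ⟨j + 1, ?_⟩
    rw [mul_pow, hen, mul_pow, pow_succ]
    linear_combination 2 * (c : L) ^ (j + 1) * hj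
  have h10 := IsNilpotent.isUnit_one_add h9
  have h11 : ((D : L) ^ (2 ^ s) - 1) * e *
      (1 + (2 * (c : L) * e + ((D : L) ^ (2 ^ s) - 1) * e * q)) = 0 := by
    linear_combination e * h8 + ((D : L) ^ (2 ^ s) - 1) *
      (2 * (c : L) + ((D : L) ^ (2 ^ s) - 1) * q) * he
  exact (h10.mul_left_eq_zero).1 h11

end Pool.Agent.Helper98.OD
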